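import Pool.Agent.W401.Cheb.AbsDefs
import Pool.Agent.W401.Gal.Trace

/-!
# The field of rationality: statements of the parts

Notation: `GK K` is the absolute Galois group of `K`, `PadicAlgCl p` the algebraic closure of `ℚ_[p]`
with its norm, `Semis ρ` says that the matrix representation `ρ` is semisimple.
-/

set_option autoImplicit false

namespace Pool.Agent.W401.FL

open NumberField IsDedekindDomain Polynomial Pool.Agent.W401.Cheb Pool.Agent.W401.Gal

/-- **FL-DISC.** Galois extensions `L/K` of number fields of degree at most `B` which are unramified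
outside the finite set `S` of primes of `K` have bounded discriminant. -/
def TaskDisc : Prop := ∀ (K : Type) [Field K] [NumberField K] (S : Set (HeightOneSpectrum (𝓞 K))),
  S.Finite → ∀ B : ℕ, ∃ C : ℕ, ∀ (L : Type) [Field L] [NumberField L] [Algebra K L] [IsGalois K L],
    Module.finrank K L ≤ B →
    (∀ P : Ideal (𝓞 L), P.IsPrime → P ≠ ⊥ →
      (∀ v ∈ S, P.comap (algebraMap (𝓞 K) (𝓞 L)) ≠ v.asIdeal) →
        ¬ P ∣ differentIdeal (𝓞 K) (𝓞 L)) →
    (discr L).natAbs ≤ C

/-- **FL-UNR.** If all inertia elements at the prime `v` fix the finite Galois extension `L` of `K`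
inside the algebraic closure, then the primes of `L` above `v` do not divide the different. -/
def TaskUnr : Prop := ∀ (K : Type) [Field K] [NumberField K] (L : Type) [Field L] [NumberField L]
  [Algebra K L] [IsGalois K L] (φ : L →ₐ[K] AlgebraicClosure K) (v : HeightOneSpectrum (𝓞 K)),
  (∀ σ : GK K, IsInert v σ → ∀ x : L, σ (φ x) = φ x) →
  ∀ P : Ideal (𝓞 L), P.IsPrime → P.comap (algebraMap (𝓞 K) (𝓞 L)) = v.asIdeal →
    ¬ P ∣ differentIdeal (𝓞 K) (𝓞 L)

/-- **FL-HM** (Hermite-Minkowski). There is an open subgroup contained in all open normal subgroups of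
index at most `B` which contain the inertia elements at all primes outside the finite set `S`. -/
def HM : Prop := ∀ (K : Type) [Field K] [NumberField K] (S : Set (HeightOneSpectrum (𝓞 K))),
  S.Finite → ∀ B : ℕ, ∃ U₀ : Subgroup (GK K), U₀.Normal ∧ IsOpen (U₀ : Set (GK K)) ∧
    ∀ U : Subgroup (GK K), U.Normal → IsOpen (U : Set (GK K)) → Nat.card (GK K ⧸ U) ≤ B →
      (∀ v : HeightOneSpectrum (𝓞 K), v ∉ S → ∀ σ : GK K, IsInert v σ → σ ∈ U) → U₀ ≤ U

def TaskHM : Prop := TaskDisc → TaskUnr → HM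

/-- **FL-KR.** The algebraic closure of `ℚ_[p]` is the union of a chain of finite extensions. -/
def TaskKR : Prop := ∀ (p : ℕ) [Fact p.Prime], ∃ E : ℕ → IntermediateField ℚ_[p] (PadicAlgCl p),
  Monotone E ∧ (∀ k, FiniteDimensional ℚ_[p] (E k)) ∧ ∀ x : PadicAlgCl p, ∃ k, x ∈ E k

/-- **FL-FE.** A continuous representation of a compact group over the algebraic closure of `ℚ_[p]` is
defined over a finite extension of `ℚ_[p]`. -/
def TaskFE : Prop := TaskKR → ∀ (p : ℕ) [Fact p.Prime] (G : Type) [Group G] [TopologicalSpace G]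
  [IsTopologicalGroup G] [CompactSpace G] [T2Space G] (n : ℕ) (ρ : G →* GL (Fin n) (PadicAlgCl p)),
  Continuous ρ → ∃ E : IntermediateField ℚ_[p] (PadicAlgCl p), FiniteDimensional ℚ_[p] E ∧
    ∀ g i j, (ρ g : Matrix (Fin n) (Fin n) (PadicAlgCl p)) i j ∈ E

/-- **FL-INT.** The characteristic polynomials of a continuous representation of a compact group over
the algebraic closure of `ℚ_[p]` have integral coefficients; there are transcendental elements of norm
greater than one; equal traces of powers imply equal characteristic polynomials. -/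
def TaskInt : Prop :=
  (∀ (p : ℕ) [Fact p.Prime] (G : Type) [Group G] [TopologicalSpace G]
    [IsTopologicalGroup G] [CompactSpace G] (n : ℕ) (ρ : G →* GL (Fin n) (PadicAlgCl p)),
    Continuous ρ → ∀ g i,
      ‖((ρ g : Matrix (Fin n) (Fin n) (PadicAlgCl p)).charpoly).coeff i‖ ≤ 1) ∧
  (∀ (p : ℕ) [Fact p.Prime], ∃ t : PadicAlgCl p, Transcendental ℚ t ∧ 1 < ‖t‖) ∧
  (∀ (k : Type) [Field k] [CharZero k] (n : ℕ) (A B : Matrix (Fin n) (Fin n) k),
    (∀ m : ℕ, (A ^ m).trace = (B ^ m).trace) → A.charpoly = B.charpoly)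

/-- **FL-ISO.** An embedding of a countable subfield of `ℂ` into the algebraic closure of `ℚ_[p]`
extends to an isomorphism. -/
def TaskIso : Prop := ∀ (p : ℕ) [Fact p.Prime] (M : Subfield ℂ), Countable M →
  ∀ τ : M →+* PadicAlgCl p, ∃ ι : ℂ ≃+* PadicAlgCl p, ∀ x : M, ι x = τ x

/-- **FL-LAT** (Faltings-Serre). Two semisimple continuous representations with traces in the finite
extension `E` of `ℚ_[p]`: there is an open normal subgroup `U` of index bounded in terms of `E` and `n`
only, such that the traces agree everywhere as soon as they agree on a set of representatives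
modulo `U`. -/
def TaskLat : Prop := ∀ (p : ℕ) [Fact p.Prime] (E : IntermediateField ℚ_[p] (PadicAlgCl p)),
  FiniteDimensional ℚ_[p] E → ∀ n : ℕ, ∃ B : ℕ, ∀ (G : Type) [Group G] [TopologicalSpace G]
    [IsTopologicalGroup G] [CompactSpace G] (ρ₁ ρ₂ : G →* GL (Fin n) (PadicAlgCl p)),
    Continuous ρ₁ → Continuous ρ₂ → Semis ρ₁ → Semis ρ₂ →
    (∀ g, (ρ₁ g : Matrix (Fin n) (Fin n) (PadicAlgCl p)).trace ∈ E) →
    (∀ g, (ρ₂ g : Matrix (Fin n) (Fin n) (PadicAlgCl p)).trace ∈ E) →
    ∃ U : Subgroup G, U.Normal ∧ IsOpen (U : Set G) ∧ Nat.card (G ⧸ U) ≤ B ∧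
      ρ₁.ker ⊓ ρ₂.ker ≤ U ∧
      ∀ X : Set G, (∀ g : G, ∃ x ∈ X, x⁻¹ * g ∈ U) →
        (∀ x ∈ X, (ρ₁ x : Matrix (Fin n) (Fin n) (PadicAlgCl p)).trace =
          (ρ₂ x : Matrix (Fin n) (Fin n) (PadicAlgCl p)).trace) →
        ∀ g : G, (ρ₁ g : Matrix (Fin n) (Fin n) (PadicAlgCl p)).trace =
          (ρ₂ g : Matrix (Fin n) (Fin n) (PadicAlgCl p)).trace

end Pool.Agent.W401.FL
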