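import Pool.Agent.W401.FL.Defs
import Pool.Agent.W401.Gal.DSMain

/-!
# The Faltings-Serre criterion
-/

set_option autoImplicit false

namespace Pool.Agent.W401.FL

open NumberField IsDedekindDomain Polynomial Pool.Agent.W401.Cheb Pool.Agent.W401.Gal Filter
  Topology

/-- Frobenius elements outside a finite set meet every coset of an open normal subgroup -/
theorem exists_frob_coset (hC : ChebK) (hF : TaskFrob) {K : Type} [Field K] [NumberField K]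
    (U : Subgroup (GK K)) [U.Normal] (hU : IsOpen (U : Set (GK K)))
    {S : Set (HeightOneSpectrum (𝓞 K))} (hS : S.Finite) (g : GK K) :
    ∃ v : HeightOneSpectrum (𝓞 K), v ∉ S ∧ ∃ σ : GK K, IsFrob v σ ∧ σ⁻¹ * g ∈ U := by
  have hker : (QuotientGroup.mk' U).ker = U := QuotientGroup.ker_mk' U
  have hopen : IsOpen ((QuotientGroup.mk' U).ker : Set (GK K)) := by rw [hker]; exact hU
  obtain ⟨c, hc1, hc2⟩ := dens_conj hC (QuotientGroup.mk' U) hopen g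
  have hfi : Finite (GK K ⧸ (QuotientGroup.mk' U).ker) := Subgroup.quotient_finite_of_isOpen _ hopen
  have h0 : (0 : ℝ) < 1 / (Nat.card (GK K ⧸ (QuotientGroup.mk' U).ker) : ℝ) := by
    have : (0 : ℝ) < (Nat.card (GK K ⧸ (QuotientGroup.mk' U).ker) : ℝ) := by
      exact_mod_cast Nat.card_pos
    positivity
  obtain ⟨v, ⟨σ, ⟨τ, hτ⟩, hσ⟩, hv⟩ := exists_prime' hc1 (h0.trans_le hc2) hS
  refine ⟨v, hv, τ⁻¹ * σ * τ⁻¹⁻¹, (hF K).2.2 v σ τ⁻¹ hσ, ?_⟩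
  rw [← QuotientGroup.eq]
  have h1 : ((σ : GK K) : GK K ⧸ U) = ((τ * g * τ⁻¹ : GK K) : GK K ⧸ U) := hτ
  rw [QuotientGroup.mk_mul, QuotientGroup.mk_mul, h1, ← QuotientGroup.mk_mul,
    ← QuotientGroup.mk_mul]
  congr 1
  group

/-- **Faltings-Serre.** -/
theorem fs (hHM : HM) (hC : ChebK) (hF : TaskFrob) (hL : TaskLat) (K : Type) [Field K]
    [NumberField K] {S : Set (HeightOneSpectrum (𝓞 K))} (hS : S.Finite) (p : ℕ) [Fact p.Prime]
    (E : IntermediateField ℚ_[p] (PadicAlgCl p)) (hE : FiniteDimensional ℚ_[p] E) (n : ℕ) :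
    ∃ T : Set (HeightOneSpectrum (𝓞 K)), T.Finite ∧ (∀ v ∈ T, v ∉ S) ∧
      ∀ ρ₁ ρ₂ : GK K →* GL (Fin n) (PadicAlgCl p), Continuous ρ₁ → Continuous ρ₂ →
        Semis ρ₁ → Semis ρ₂ →
        (∀ v, v ∉ S → ∀ σ, IsInert v σ → ρ₁ σ = 1) → (∀ v, v ∉ S → ∀ σ, IsInert v σ → ρ₂ σ = 1) →
        (∀ g, (ρ₁ g : Matrix (Fin n) (Fin n) (PadicAlgCl p)).trace ∈ E) →
        (∀ g, (ρ₂ g : Matrix (Fin n) (Fin n) (PadicAlgCl p)).trace ∈ E) →
        (∀ v ∈ T, ∀ σ, IsFrob v σ → (ρ₁ σ : Matrix (Fin n) (Fin n) (PadicAlgCl p)).trace =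
          (ρ₂ σ : Matrix (Fin n) (Fin n) (PadicAlgCl p)).trace) →
        ∀ g, (ρ₁ g : Matrix (Fin n) (Fin n) (PadicAlgCl p)).trace =
          (ρ₂ g : Matrix (Fin n) (Fin n) (PadicAlgCl p)).trace := by
  classical
  obtain ⟨B, hB⟩ := hL p E hE n
  obtain ⟨U₀, hU₀n, hU₀o, hU₀⟩ := hHM K S hS B
  have hfi : Finite (GK K ⧸ U₀) := Subgroup.quotient_finite_of_isOpen U₀ hU₀o
  have hex : ∀ q : GK K ⧸ U₀, ∃ v : HeightOneSpectrum (𝓞 K), v ∉ S ∧ ∃ σ : GK K, IsFrob v σ ∧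
      (σ : GK K ⧸ U₀) = q := by
    intro q
    obtain ⟨g, rfl⟩ := QuotientGroup.mk_surjective q
    obtain ⟨v, hv, σ, hσ, h1⟩ := exists_frob_coset hC hF U₀ hU₀o hS g
    exact ⟨v, hv, σ, hσ, QuotientGroup.eq.mpr h1⟩
  choose v hv s hs hsq using hex
  refine ⟨Set.range v, Set.finite_range v, ?_, ?_⟩
  · rintro _ ⟨q, rfl⟩
    exact hv q
  · intro ρ₁ ρ₂ h1 h2 h3 h4 h5 h6 h7 h8 h9
    obtain ⟨U, hUn, hUo, hUc, hUk, hX⟩ := hB (GK K) ρ₁ ρ₂ h1 h2 h3 h4 h7 h8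
    have hle : U₀ ≤ U := hU₀ U hUn hUo hUc fun w hw σ hσ =>
      hUk ⟨h5 w hw σ hσ, h6 w hw σ hσ⟩
    refine hX (Set.range s) (fun g => ?_) ?_
    · refine ⟨s (g : GK K ⧸ U₀), ⟨_, rfl⟩, hle ?_⟩
      rw [← QuotientGroup.eq]
      exact hsq _
    · rintro _ ⟨q, rfl⟩
      exact h9 (v q) ⟨q, rfl⟩ (s q) (hs q)

/-- a closed set containing all Frobenius elements outside `S` is everything -/
theorem closed_frob (hC : ChebK) (hF : TaskFrob) {K : Type} [Field K] [NumberField K]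
    {S : Set (HeightOneSpectrum (𝓞 K))} (hS : S.Finite) {Z : Set (GK K)} (hZ : IsClosed Z)
    (h : ∀ v, v ∉ S → ∀ σ, IsFrob v σ → σ ∈ Z) : Z = Set.univ := by
  by_contra hne
  have hne' : (Zᶜ).Nonempty := Set.nonempty_compl.mpr hne
  obtain ⟨g, hg⟩ := hne'
  have hop : IsOpen ((fun x => g * x) ⁻¹' Zᶜ) := hZ.isOpen_compl.preimage (continuous_const_mul g)
  have h1 : (1 : GK K) ∈ (fun x => g * x) ⁻¹' Zᶜ := by simpa using hg
  obtain ⟨U, hU⟩ := ProfiniteGrp.exist_openNormalSubgroup_sub_open_nhds_of_one hop h1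
  have hUn : (U.toSubgroup).Normal := U.isNormal'
  obtain ⟨v, hv, σ, hσ, hmem⟩ := exists_frob_coset hC hF U.toSubgroup U.isOpen' hS g
  have h2 : g⁻¹ * σ ∈ U.toSubgroup := by
    have := U.toSubgroup.inv_mem hmem
    simpa using this
  have h3 := hU h2
  simp only [Set.mem_preimage, mul_inv_cancel_left, Set.mem_compl_iff] at h3
  exact h3 (h v hv σ hσ)

end Pool.Agent.W401.FL
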