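import Pool.Agent.W401.FL.FS

/-!
# The field of rationality
-/

set_option autoImplicit false

namespace Pool.Agent.W401.FL

open NumberField IsDedekindDomain Polynomial Pool.Agent.W401.Cheb Pool.Agent.W401.Gal Filter
  Topology IntermediateField

theorem exists_hom_adjoin {k L L' : Type} [Field k] [Field L] [Field L'] [Algebra k L]
    [Algebra k L'] {x : L} {t : L'} (hx : Transcendental k x) (ht : Transcendental k t) :
    ∃ τ : k⟮x⟯ →+* L', τ (AdjoinSimple.gen k x) = t := by
  refine ⟨((k⟮t⟯).val.comp ((RatFunc.algEquivOfTranscendental _ hx).symm.trans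
    (RatFunc.algEquivOfTranscendental _ ht)).toAlgHom).toRingHom, ?_⟩
  change (((RatFunc.algEquivOfTranscendental _ ht) ((RatFunc.algEquivOfTranscendental _ hx).symm
    (AdjoinSimple.gen k x)) : k⟮t⟯) : L') = t
  rw [RatFunc.algEquivOfTranscendental_symm_gen, RatFunc.algEquivOfTranscendental_X]

section
variable {K : Type} [Field K] [NumberField K]

/-- the coefficients of the polynomials `A v`, `v ∉ S` -/
def coefs (S : Set (HeightOneSpectrum (𝓞 K))) (A : HeightOneSpectrum (𝓞 K) → ℂ[X]) : Set ℂ :=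
  {x | ∃ v, v ∉ S ∧ ∃ i, x = (A v).coeff i}

/-- For every isomorphism of `ℂ` with the algebraic closure of `ℚ_[p]` there is a continuous
semisimple representation attached to the polynomials `A v`, `v ∉ S`. -/
def GalExists (n p : ℕ) [Fact p.Prime] (S : Set (HeightOneSpectrum (𝓞 K)))
    (A : HeightOneSpectrum (𝓞 K) → ℂ[X]) : Prop :=
  ∀ ι : ℂ ≃+* PadicAlgCl p, ∃ ρ : GK K →* GL (Fin n) (PadicAlgCl p), Continuous ρ ∧ Semis ρ ∧
    Attached S A (ι : ℂ →+* PadicAlgCl p) ρ

lemma absNorm_cast_ne {k : Type*} [Field k] [CharZero k] (v : HeightOneSpectrum (𝓞 K)) :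
    ((Ideal.absNorm v.asIdeal : ℕ) : k) ≠ 0 := by
  rw [Nat.cast_ne_zero]
  intro h3
  rw [Ideal.absNorm_eq_zero_iff] at h3
  exact v.ne_bot h3

variable {n p : ℕ} [Fact p.Prime] {S : Set (HeightOneSpectrum (𝓞 K))}
  {A : HeightOneSpectrum (𝓞 K) → ℂ[X]}

lemma coeff_frob {ι : ℂ ≃+* PadicAlgCl p} {ρ : GK K →* GL (Fin n) (PadicAlgCl p)}
    (h : Attached S A (ι : ℂ →+* PadicAlgCl p) ρ) {v : HeightOneSpectrum (𝓞 K)} (hv : v ∉ S)
    {σ : GK K} (hσ : IsFrob v σ) (i : ℕ) :
    ((ρ σ : Matrix (Fin n) (Fin n) (PadicAlgCl p)).charpoly).coeff i = ι ((A v).coeff i) := by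
  rw [h.frob v hv (absNorm_cast_ne v) σ hσ, Polynomial.coeff_map]
  rfl

/-- the coefficients are algebraic numbers -/
theorem algebraic (hF : TaskFrob) (hI : TaskInt) (hIso : TaskIso) (h : GalExists n p S A) {x : ℂ}
    (hx : x ∈ coefs S A) : IsAlgebraic ℚ x := by
  by_contra hxt
  have hxt' : Transcendental ℚ x := hxt
  obtain ⟨v, hv, i, rfl⟩ := hx
  obtain ⟨t, ht, ht1⟩ := hI.2.1 p
  obtain ⟨τ, hτ⟩ := exists_hom_adjoin hxt' ht
  have hcount : Countable (ℚ⟮(A v).coeff i⟯).toSubfield := by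
    have h1 := IntermediateField.cardinalMk_adjoin_le (F := ℚ) ({(A v).coeff i} : Set ℂ)
    have h2 : Countable ℚ⟮(A v).coeff i⟯ := by
      rw [← Cardinal.mk_le_aleph0_iff]
      refine h1.trans ?_
      simp
    exact h2
  obtain ⟨ι, hι⟩ := hIso p (ℚ⟮(A v).coeff i⟯).toSubfield hcount τ
  obtain ⟨ρ, hρ1, hρ2, hρ3⟩ := h ι
  obtain ⟨σ, hσ⟩ := (hF K).1 v
  have h1 := hI.1 p (GK K) n ρ hρ1 σ i
  rw [coeff_frob hρ3 hv hσ] at h1
  have h2 : ι ((A v).coeff i) = t := by
    have h3 := hι ⟨(A v).coeff i, IntermediateField.mem_adjoin_simple_self ℚ _⟩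
    exact h3.trans hτ
  rw [h2] at h1
  linarith

end

section
variable {k : Type} [Field k] [CharZero k] [Countable k] [Algebra k ℂ]

omit [CharZero k] [Countable k] in
/-- algebraic complex numbers come from the algebraic closure of `k` -/
lemma exists_preimage (e : AlgebraicClosure k →ₐ[k] ℂ) {x : ℂ} (hx : IsAlgebraic k x) :
    ∃ c, e c = x := by
  have hsp : ((minpoly k x).map (algebraMap k (AlgebraicClosure k))).Splits :=
    IsAlgClosed.splits _
  have hmon : ((minpoly k x).map (algebraMap k (AlgebraicClosure k))).Monic :=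
    (minpoly.monic hx.isIntegral).map _
  have h1 := hsp.eq_prod_roots_of_monic hmon
  have h2 : ((minpoly k x).map (algebraMap k (AlgebraicClosure k))).map (e : AlgebraicClosure k →+* ℂ)
      = (minpoly k x).map (algebraMap k ℂ) := by
    rw [Polynomial.map_map]
    congr 1
    exact e.comp_algebraMap
  have h3 : (((minpoly k x).map (algebraMap k (AlgebraicClosure k))).map
      (e : AlgebraicClosure k →+* ℂ)).eval x = 0 := by
    rw [h2, Polynomial.eval_map_algebraMap, minpoly.aeval]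
  rw [h1, Polynomial.map_multiset_prod, Polynomial.eval_multiset_prod, Multiset.prod_eq_zero_iff,
    Multiset.map_map, Multiset.map_map] at h3
  obtain ⟨c, _, hc⟩ := Multiset.mem_map.mp h3
  refine ⟨c, ?_⟩
  simp only [Function.comp_apply, Polynomial.map_sub, Polynomial.map_X, Polynomial.map_C,
    Polynomial.eval_sub, Polynomial.eval_X, Polynomial.eval_C, sub_eq_zero] at hc
  exact hc.symm

omit [CharZero k] in
/-- isomorphisms from Galois automorphisms -/
lemma exists_iso {p : ℕ} [Fact p.Prime] (hIso : TaskIso) (e : AlgebraicClosure k →ₐ[k] ℂ)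
    (τ : AlgebraicClosure k →+* PadicAlgCl p) :
    ∃ ι : ℂ ≃+* PadicAlgCl p, ∀ x : AlgebraicClosure k, ι (e x) = τ x := by
  set M : Subfield ℂ := (e : AlgebraicClosure k →+* ℂ).fieldRange with hM
  let eM : AlgebraicClosure k ≃+* M :=
    RingEquiv.ofBijective _ (RingHom.rangeRestrictField_bijective (e : AlgebraicClosure k →+* ℂ))
  have hcount : Countable M := by
    have h1 := Algebraic.countable k ℂ
    have h2 : (M : Set ℂ) ⊆ {x : ℂ | IsAlgebraic k x} := by
      rintro _ ⟨y, rfl⟩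
      exact (Algebra.IsAlgebraic.isAlgebraic (R := k) y).algHom e
    exact (h1.mono h2).to_subtype
  obtain ⟨ι, hι⟩ := hIso p M hcount (τ.comp (eM.symm : M →+* AlgebraicClosure k))
  refine ⟨ι, fun x => ?_⟩
  have h1 := hι (eM x)
  have h2 : (τ.comp (eM.symm : M →+* AlgebraicClosure k)) (eM x) = τ x := by
    change τ (eM.symm (eM x)) = τ x
    rw [RingEquiv.symm_apply_apply]
  rw [h2] at h1
  exact h1

omit [CharZero k] [Countable k] [Algebra k ℂ] in
lemma isOpen_apply (P : AlgebraicClosure k → Prop) (c : AlgebraicClosure k) :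
    IsOpen {γ : GK k | P (γ c)} := by
  rw [isOpen_iff_mem_nhds]
  intro γ hγ
  have hfd : FiniteDimensional k k⟮c⟯ :=
    IntermediateField.adjoin.finiteDimensional (Algebra.IsIntegral.isIntegral c)
  have h1 : IsOpen ((fun δ : GK k => γ⁻¹ * δ) ⁻¹' (k⟮c⟯.fixingSubgroup : Set (GK k))) :=
    (IntermediateField.fixingSubgroup_isOpen k⟮c⟯).preimage (continuous_const_mul _)
  refine mem_of_superset (h1.mem_nhds ?_) ?_
  · simp
  · intro δ hδ
    have h2 : (γ⁻¹ * δ) c = c := by
      have := (IntermediateField.mem_fixingSubgroup_iff _ _).mp hδ c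
        (IntermediateField.mem_adjoin_simple_self k c)
      exact this
    have h3 : δ c = γ c := by
      have h4 : δ = γ * (γ⁻¹ * δ) := by group
      rw [h4, AlgEquiv.mul_apply, h2]
    change P (δ c)
    rw [h3]
    exact hγ

end

section
variable {K : Type} [Field K] [NumberField K]
variable {n p : ℕ} [Fact p.Prime] {S : Set (HeightOneSpectrum (𝓞 K))}
  {A : HeightOneSpectrum (𝓞 K) → ℂ[X]}

lemma charpoly_coeff_mem {E : IntermediateField ℚ_[p] (PadicAlgCl p)}
    (M : Matrix (Fin n) (Fin n) (PadicAlgCl p)) (h : ∀ i j, M i j ∈ E) (i : ℕ) :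
    M.charpoly.coeff i ∈ E := by
  let M' : Matrix (Fin n) (Fin n) E := Matrix.of fun i j => ⟨M i j, h i j⟩
  have h1 : M = M'.map (algebraMap E (PadicAlgCl p)) := by
    ext i j; rfl
  rw [h1, Matrix.charpoly_map, Polynomial.coeff_map]
  exact (M'.charpoly.coeff i).2

/-- **The field of rationality is a number field.** -/
theorem main_gen {k : Type} [Field k] [CharZero k] [Countable k] [Algebra k ℂ]
    [Algebra k (PadicAlgCl p)] (hHM : HM) (hC : ChebK) (hF : TaskFrob) (hL : TaskLat) (hKR : TaskKR) (hFE : TaskFE)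
    (hI : TaskInt) (hIso : TaskIso) (hn : 0 < n) (hS : S.Finite) (h : GalExists n p S A)
    (halg : ∀ x ∈ coefs S A, IsAlgebraic k x) :
    FiniteDimensional k (IntermediateField.adjoin k (coefs S A)) := by
  classical
  obtain ⟨E, hEm, hEf, hE⟩ := hKR p
  let e : AlgebraicClosure k →ₐ[k] ℂ := IsAlgClosed.lift
  let τ₀ : AlgebraicClosure k →ₐ[k] PadicAlgCl p := IsAlgClosed.lift
  have hpre : ∀ x ∈ coefs S A, ∃ c, e c = x := fun x hx =>
    exists_preimage e (halg x hx)
  have hiso : ∀ γ : GK k, ∃ ι : ℂ ≃+* PadicAlgCl p, ∀ x : AlgebraicClosure k,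
      ι (e x) = τ₀ (γ x) := by
    intro γ
    obtain ⟨ι, hι⟩ := exists_iso (p := p) hIso e
      ((τ₀ : AlgebraicClosure k →+* PadicAlgCl p).comp (γ : AlgebraicClosure k →+* AlgebraicClosure k))
    exact ⟨ι, fun x => hι x⟩
  choose ι hι using hiso
  choose ρ hρc hρs hρa using fun γ : GK k => h (ι γ)
  -- all coefficients in one member of the chain
  have hk : ∀ γ : GK k, ∃ m, ∀ x ∈ coefs S A, ι γ x ∈ E m := by
    intro γ
    obtain ⟨E', hE'f, hE'⟩ := hFE hKR p (GK K) n (ρ γ) (hρc γ)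
    have hle : ∃ m, E' ≤ E m := by
      let b := Module.finBasis ℚ_[p] E'
      choose kk hkk using fun i => hE (b i : PadicAlgCl p)
      refine ⟨Finset.univ.sup kk, fun x hx => ?_⟩
      have h1 : (x : PadicAlgCl p) = ∑ i, (b.repr ⟨x, hx⟩ i) • (b i : PadicAlgCl p) := by
        have h2 := b.sum_repr ⟨x, hx⟩
        have h3 := congrArg (fun y : E' => (y : PadicAlgCl p)) h2
        simp only [AddSubmonoidClass.coe_finsetSum] at h3
        exact h3.symm
      rw [h1]
      refine sum_mem fun i _ => ?_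
      have h4 : (b i : PadicAlgCl p) ∈ E (Finset.univ.sup kk) :=
        hEm (Finset.le_sup (Finset.mem_univ i)) (hkk i)
      exact (E _).smul_mem h4
    obtain ⟨m, hk⟩ := hle
    refine ⟨m, ?_⟩
    rintro _ ⟨v, hv, i, rfl⟩
    obtain ⟨σ, hσ⟩ := (hF K).1 v
    rw [← coeff_frob (hρa γ) hv hσ i]
    exact hk (charpoly_coeff_mem _ (hE' σ) i)
  let coefs' : Set (AlgebraicClosure k) := {c | e c ∈ coefs S A}
  let Ck : ℕ → Set (GK k) := fun m => {γ | ∀ c ∈ coefs', τ₀ (γ c) ∈ E m}
  have hCk : ∀ m, IsClosed (Ck m) := by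
    intro m
    have h1 : Ck m = ⋂ c ∈ coefs', {γ : GK k | τ₀ (γ c) ∈ E m} := by
      ext γ; simp [Ck]
    rw [h1]
    refine isClosed_biInter fun c _ => ?_
    rw [← isOpen_compl_iff]
    exact isOpen_apply (fun x => ¬ τ₀ x ∈ E m) c
  have hun : ⋃ m, Ck m = Set.univ := by
    rw [Set.eq_univ_iff_forall]
    intro γ
    obtain ⟨m, hk⟩ := hk γ
    refine Set.mem_iUnion.mpr ⟨m, fun c hc => ?_⟩
    rw [← hι]
    exact hk _ hc
  obtain ⟨m, γ₀, hγ₀⟩ := nonempty_interior_of_iUnion_of_closed hCk hun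
  have hop : IsOpen ((fun x => γ₀ * x) ⁻¹' interior (Ck m)) :=
    isOpen_interior.preimage (continuous_const_mul γ₀)
  obtain ⟨V, hV⟩ := ProfiniteGrp.exist_openNormalSubgroup_sub_open_nhds_of_one hop
    (by simpa using hγ₀)
  obtain ⟨T, hTf, hTS, hT⟩ := fs hHM hC hF hL K hS p (E m) (hEf m) n
  -- the traces at `T`
  choose! c hc using fun (v : HeightOneSpectrum (𝓞 K)) (hv : v ∈ T) =>
    hpre ((A v).coeff (n - 1)) ⟨v, hTS v hv, n - 1, rfl⟩
  set L₁ : IntermediateField k (AlgebraicClosure k) := IntermediateField.adjoin k (c '' T) with hL₁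
  have hL₁f : FiniteDimensional k L₁ := by
    have : Finite (c '' T) := (hTf.image c).to_subtype
    exact IntermediateField.finiteDimensional_adjoin fun x _ => Algebra.IsIntegral.isIntegral x
  set V₁ : Subgroup (GK k) := V.toSubgroup ⊓ L₁.fixingSubgroup with hV₁
  have hV₁o : IsOpen (V₁ : Set (GK k)) := V.isOpen'.inter L₁.fixingSubgroup_isOpen
  -- traces are in `E m`
  have htr : ∀ γ ∈ Ck m, ∀ g : GK K,
      (ρ γ g : Matrix (Fin n) (Fin n) (PadicAlgCl p)).trace ∈ E m := by
    intro γ hγ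
    have hcl : IsClosed {g : GK K | (ρ γ g : Matrix (Fin n) (Fin n) (PadicAlgCl p)).trace ∈ E m} := by
      have h1 : IsClosed ((E m : Set (PadicAlgCl p))) := by
        have hfd := hEf m
        have : FiniteDimensional ℚ_[p] (Subalgebra.toSubmodule (E m).toSubalgebra) := hfd
        exact Submodule.closed_of_finiteDimensional (Subalgebra.toSubmodule (E m).toSubalgebra)
      refine h1.preimage ?_
      exact Continuous.matrix_trace (Units.continuous_val.comp (hρc γ))
    have h2 := closed_frob hC hF hS hcl ?_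
    · intro g
      have : g ∈ {g : GK K | (ρ γ g : Matrix (Fin n) (Fin n) (PadicAlgCl p)).trace ∈ E m} := by
        rw [h2]; trivial
      exact this
    · intro v hv σ hσ
      have : Nonempty (Fin n) := ⟨⟨0, hn⟩⟩
      change (ρ γ σ : Matrix (Fin n) (Fin n) (PadicAlgCl p)).trace ∈ E m
      rw [Matrix.trace_eq_neg_charpoly_coeff, Fintype.card_fin, coeff_frob (hρa γ) hv hσ]
      obtain ⟨c', hc'⟩ := hpre ((A v).coeff (n - 1)) ⟨v, hv, n - 1, rfl⟩
      rw [← hc', hι]
      refine (E m).neg_mem (hγ c' ?_)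
      change e c' ∈ coefs S A
      rw [hc']
      exact ⟨v, hv, n - 1, rfl⟩
  -- the coefficients are fixed by `V₁`
  have hfix : ∀ δ ∈ V₁, ∀ c' ∈ coefs', δ c' = c' := by
    intro δ hδ c' hc'
    have hγ₀C : γ₀ ∈ Ck m := interior_subset hγ₀
    have hγδC : γ₀ * δ ∈ Ck m := interior_subset (hV hδ.1)
    have hiner : ∀ γ : GK k, ∀ v, v ∉ S → ∀ σ, IsInert v σ → ρ γ σ = 1 := fun γ v hv σ hσ =>
      (hρa γ).unram v hv (absNorm_cast_ne v) σ hσ
    have htreq := hT (ρ γ₀) (ρ (γ₀ * δ)) (hρc _) (hρc _) (hρs _) (hρs _) (hiner _) (hiner _)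
      (htr _ hγ₀C) (htr _ hγδC) (by
        intro v hv σ hσ
        have : Nonempty (Fin n) := ⟨⟨0, hn⟩⟩
        rw [Matrix.trace_eq_neg_charpoly_coeff, Matrix.trace_eq_neg_charpoly_coeff,
          Fintype.card_fin, coeff_frob (hρa _) (hTS v hv) hσ, coeff_frob (hρa _) (hTS v hv) hσ,
          ← hc v hv, hι, hι]
        have h1 : δ (c v) = c v := by
          have := (IntermediateField.mem_fixingSubgroup_iff _ _).mp hδ.2 (c v)
            (IntermediateField.subset_adjoin k _ ⟨v, hv, rfl⟩)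
          exact this
        rw [AlgEquiv.mul_apply, h1])
    obtain ⟨v, hv, i, hvi⟩ : e c' ∈ coefs S A := hc'
    obtain ⟨σ, hσ⟩ := (hF K).1 v
    have hcp : (ρ γ₀ σ : Matrix (Fin n) (Fin n) (PadicAlgCl p)).charpoly =
        (ρ (γ₀ * δ) σ : Matrix (Fin n) (Fin n) (PadicAlgCl p)).charpoly := by
      refine hI.2.2 _ _ _ _ fun m => ?_
      have := htreq (σ ^ m)
      rw [map_pow, map_pow, Units.val_pow_eq_pow_val, Units.val_pow_eq_pow_val] at this
      exact this
    have h2 := congrArg (fun P => P.coeff i) hcp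
    beta_reduce at h2
    rw [coeff_frob (hρa _) hv hσ, coeff_frob (hρa _) hv hσ, ← hvi, hι, hι, AlgEquiv.mul_apply] at h2
    exact (γ₀.injective (τ₀.toRingHom.injective h2)).symm
  -- conclusion
  set L' : IntermediateField k (AlgebraicClosure k) := IntermediateField.fixedField V₁ with hL'
  have hL'f : FiniteDimensional k L' := by
    rw [← InfiniteGalois.isOpen_iff_finite]
    refine Subgroup.isOpen_mono (H₁ := V₁) ?_ hV₁o
    exact (IntermediateField.le_iff_le _ _).mp le_rfl
  have hle : IntermediateField.adjoin k (coefs S A) ≤ L'.map e := by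
    rw [IntermediateField.adjoin_le_iff]
    intro x hx
    obtain ⟨c', rfl⟩ := hpre x hx
    refine ⟨c', ?_, rfl⟩
    intro δ
    exact hfix δ.1 δ.2 c' hx
  have : FiniteDimensional k (L'.map e) :=
    (L'.equivMap e).toLinearEquiv.finiteDimensional
  exact Module.Finite.of_injective (IntermediateField.inclusion hle).toLinearMap
    (IntermediateField.inclusion hle).injective

/-- **The field of rationality is a number field** (over `ℚ`). -/
theorem main (hHM : HM) (hC : ChebK) (hF : TaskFrob) (hL : TaskLat) (hKR : TaskKR) (hFE : TaskFE)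
    (hI : TaskInt) (hIso : TaskIso) (hn : 0 < n) (hS : S.Finite) (h : GalExists n p S A) :
    FiniteDimensional ℚ (IntermediateField.adjoin ℚ (coefs S A)) :=
  main_gen hHM hC hF hL hKR hFE hI hIso hn hS h fun _ hx => algebraic hF hI hIso h hx

end

end Pool.Agent.W401.FL
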